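import Pool.Agent.KK.StmtsE

/-!
# Squad KK, row E_REV (StmtE22): reversal and exchange of the colours
-/

set_option autoImplicit false

namespace Pool.Agent.KK.E.H72

open Pool.Agent.KK Pool.Agent.KK.E

variable {V : Type} [Fintype V] [DecidableEq V]

omit [Fintype V] in
theorem tight_reverse (H : Finset (Finset V)) (k : ℕ) {l : List V} (h : Tight H k l) :
    Tight H k l.reverse := by
  intro s hs hk
  have h1 : s.reverse <:+: l := by
    rw [← List.reverse_infix, List.reverse_reverse]
    exact hs
  have h2 := h s.reverse h1 (by rw [List.length_reverse]; exact hk)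
  rwa [List.toFinset_reverse] at h2

omit [Fintype V] in
theorem path_reverse (H : Finset (Finset V)) (k : ℕ) {l : List V} (h : Path H k l) :
    Path H k l.reverse :=
  ⟨List.nodup_reverse.2 h.1, tight_reverse H k h.2⟩

theorem sd_compl (X : Finset V) (b : Bool) : sd Xᶜ (!b) = sd X b := by
  cases b <;> simp [sd]

theorem alm_rev (e02 : StmtE02) (X : Finset V) (hX : X.Nonempty) (hX' : (Xᶜ).Nonempty)
    (w : List Bool) (T : Set (List V)) (β : ℝ) (h : Alm X w T β) :
    Alm Xᶜ ((w.map not).reverse) {a | a.reverse ∈ T} β := by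
  have hlen : ((w.map not).reverse).length = w.length := by simp
  have hne : ∀ (Y : Finset V), Y.Nonempty → (Yᶜ).Nonempty → ∀ b, (sd Y b).Nonempty := by
    intro Y h1 h2 b
    cases b
    · simpa [sd] using h2
    · simpa [sd] using h1
  have hφ : ∀ i : Fin w.length, w.length - 1 - (i : ℕ) < ((w.map not).reverse).length := by
    intro i
    rw [hlen]
    have := i.2
    omega
  have hinj : Function.Injective
      (fun i : Fin w.length => (⟨w.length - 1 - (i : ℕ), hφ i⟩ : Fin ((w.map not).reverse).length))
      := by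
    intro i j hij
    have h1 : w.length - 1 - (i : ℕ) = w.length - 1 - (j : ℕ) := by
      simpa using hij
    apply Fin.ext
    have := i.2
    have := j.2
    omega
  have key := e02 V (Fin ((w.map not).reverse).length) (Fin w.length)
    (fun i => sd Xᶜ (((w.map not).reverse).get i))
    (fun i : Fin w.length => (⟨w.length - 1 - (i : ℕ), hφ i⟩ : Fin ((w.map not).reverse).length))
    (fun i => hne Xᶜ hX' (by rw [compl_compl]; exact hX) _) hinj
    (fun a => List.ofFn a ∉ T)
  have hc : ((fun i => sd Xᶜ (((w.map not).reverse).get i)) ∘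
      (fun i : Fin w.length => (⟨w.length - 1 - (i : ℕ), hφ i⟩ :
        Fin ((w.map not).reverse).length))) = fun i : Fin w.length => sd X (w.get i) := by
    funext i
    have h1 : ((w.map not).reverse).get ⟨w.length - 1 - (i : ℕ), hφ i⟩ = !(w.get i) := by
      rw [List.get_eq_getElem, List.getElem_reverse, List.getElem_map]
      have h2 : (w.map not).length - 1 - (w.length - 1 - (i : ℕ)) = i := by
        rw [List.length_map]
        have := i.2
        omega
      simp only [h2]
      rfl
    show sd Xᶜ (((w.map not).reverse).get ⟨w.length - 1 - (i : ℕ), hφ i⟩) = _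
    rw [h1, sd_compl]
  rw [hc] at key
  have hP : (fun f : Fin ((w.map not).reverse).length → V => List.ofFn (f ∘
      (fun i : Fin w.length => (⟨w.length - 1 - (i : ℕ), hφ i⟩ :
        Fin ((w.map not).reverse).length))) ∉ T) =
      fun f => List.ofFn f ∉ {a : List V | a.reverse ∈ T} := by
    funext f
    have h1 : List.ofFn (f ∘ (fun i : Fin w.length => (⟨w.length - 1 - (i : ℕ), hφ i⟩ :
        Fin ((w.map not).reverse).length))) = (List.ofFn f).reverse := by
      apply List.ext_getElem
      · rw [List.length_ofFn, List.length_reverse, List.length_ofFn, hlen]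
      · intro n h1 h2
        rw [List.getElem_reverse, List.getElem_ofFn, List.getElem_ofFn]
        show f ⟨w.length - 1 - n, _⟩ = f ⟨(List.ofFn f).length - 1 - n, _⟩
        congr 1
        apply Fin.ext
        show w.length - 1 - n = (List.ofFn f).length - 1 - n
        rw [List.length_ofFn, hlen]
    rw [h1]
    rfl
  rw [hP] at key
  unfold Alm at h ⊢
  rw [key]
  exact h

theorem low_rev (p q : ℕ) : ((high p q).map not).reverse = low q p := by
  simp [high, low, List.map_append, List.map_replicate, List.reverse_append, List.reverse_replicate]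

theorem high_rev (p q : ℕ) : ((low p q).map not).reverse = high q p := by
  simp [high, low, List.map_append, List.map_replicate, List.reverse_append, List.reverse_replicate]

theorem amb_nonempty {H : Finset (Finset V)} {X : Finset V} {p q B : ℕ} {δ : ℝ}
    (h : Amb H X p q B δ) : X.Nonempty ∧ (Xᶜ).Nonempty := by
  have h1 : 0 < 100 * ((p + q + 2 : ℕ) : ℝ) ^ 2 * ((B + p + q + 2 : ℕ) : ℝ) := by
    positivity
  have h2 := lt_of_lt_of_le h1 h.big
  have h3 : 0 < (Fintype.card V : ℝ) := by
    by_contra h4
    have h5 : δ * (Fintype.card V : ℝ) ≤ 0 :=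
      mul_nonpos_of_nonneg_of_nonpos h.pos.le (not_lt.1 h4)
    linarith
  have h4 : 0 < (1 - δ) * (Fintype.card V : ℝ) / 2 := by
    have := h.small
    have : 0 < 1 - δ := by linarith
    positivity
  constructor
  · rw [← Finset.card_pos]
    have := lt_of_lt_of_le h4 h.lo
    exact_mod_cast this
  · rw [← Finset.card_pos]
    have := lt_of_lt_of_le h4 h.lo'
    exact_mod_cast this

/-- E22 (row E_REV). -/
theorem e_rev (e02 : StmtE02) (e07 : StmtE07) (e21 : StmtE21) : StmtE22 := by
  intro V _ _ H X M F p q B δ h β η θ S T hA hC hβ hM hMne hMX hMc hθ hF hd hS hT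
  obtain ⟨hX, hX'⟩ := amb_nonempty hA
  obtain ⟨-, d2, -, d4, d5⟩ := e07 V H X hX hX'
  have hpq : p + q + 2 = q + p + 2 := by omega
  have a1 : Amb H Xᶜ q p B δ := d5 p q B δ hA
  have a2 : Cst (q + p + 2) B η θ h δ := hpq ▸ hC
  have a3 : Mst H Xᶜ q p η M := (d4 p q η M).2 hM
  have a4 : θ M.card < Mix H Xᶜ M (q + 1 - M.card) p := by
    rw [d2]
    exact hθ
  have a5 : Alm Xᶜ (low q p) {a | a.reverse ∈ T} β := by
    have := alm_rev e02 X hX hX' (high p q) T β hT
    rwa [low_rev] at this
  have a6 : Alm Xᶜ (high q p) {a | a.reverse ∈ S} β := by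
    have := alm_rev e02 X hX hX' (low p q) S β hS
    rwa [high_rev] at this
  obtain ⟨l, l1, l2, l3, l4, l5, l6⟩ := e21 V H Xᶜ M F q p B δ h β η θ
    {a | a.reverse ∈ T} {a | a.reverse ∈ S} a1 a2 hβ a3 hMne hMX hMc a4 hF hd a5 a6
  rw [← hpq] at l1 l2 l3 l4
  refine ⟨l.reverse, path_reverse H _ l1, by rw [List.length_reverse]; exact l2, ?_, ?_, ?_, ?_⟩
  · rw [List.take_reverse]
    have e : l.length - (p + q + 2 - 1) = 2 * (p + q + 2) - 1 := by rw [l2]; omega
    rw [e]
    exact l4
  · rw [List.drop_reverse]
    have e : l.length - (2 * (p + q + 2) - 1) = p + q + 2 - 1 := by rw [l2]; omega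
    rw [e]
    exact l3
  · rw [List.toFinset_reverse]; exact l5
  · rw [List.toFinset_reverse]; exact l6

end Pool.Agent.KK.E.H72
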