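import Pool.Agent.KK.StmtsC

/-!
# Squad KK, row JSQ: joining a sequence of segments with connectors from a family
-/

set_option autoImplicit false

namespace Pool.Agent.KK.H72

open Pool.Agent.KK

variable {V : Type} [Fintype V] [DecidableEq V]

omit [Fintype V] in
/-- Concatenation lemma. -/
theorem tight_cat (H : Finset (Finset V)) (k : ℕ) {u a v : List V} (h1 : Tight H k (u ++ a))
    (h2 : Tight H k (a ++ v)) (ha : k - 1 ≤ a.length) : Tight H k (u ++ a ++ v) := by
  intro s hs hk
  obtain ⟨x, y, hxy⟩ := hs
  by_cases hx : u.length ≤ x.length
  · have hpre : u <+: x := by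
      apply List.prefix_of_prefix_length_le (l₃ := u ++ a ++ v) _ _ hx
      · exact ⟨a ++ v, by rw [List.append_assoc]⟩
      · exact ⟨s ++ y, by rw [← hxy, List.append_assoc]⟩
    obtain ⟨x', rfl⟩ := hpre
    apply h2 s _ hk
    refine ⟨x', y, ?_⟩
    have h3 : u ++ (x' ++ s ++ y) = u ++ (a ++ v) := by
      rw [← List.append_assoc u a v, ← hxy]
      simp [List.append_assoc]
    exact List.append_cancel_left h3
  · have hx' : x.length < u.length := not_le.1 hx
    have hpre : x ++ s <+: u ++ a := by
      apply List.prefix_of_prefix_length_le (l₃ := u ++ a ++ v)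
      · exact ⟨y, hxy⟩
      · exact ⟨v, rfl⟩
      · rw [List.length_append, List.length_append]
        omega
    obtain ⟨z, hz⟩ := hpre
    exact h1 s ⟨x, z, hz⟩ hk

/-- consecutive segments are joined by the connectors -/
def Conn (H : Finset (Finset V)) (k : ℕ) : List (List V) → List (List V) → Prop
  | [], _ => True
  | [_], _ => True
  | _ :: _ :: _, [] => False
  | p :: q :: ps, w :: ws =>
      Path H k (p.drop (p.length - (k - 1)) ++ w ++ q.take (k - 1)) ∧ Conn H k (q :: ps) ws

omit [Fintype V] in
theorem exists_conn (H : Finset (Finset V)) (k q : ℕ) (T : Fin q → Set (List V))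
    (F : List (List V)) (N : ℕ)
    (hc : ∀ i, ∀ a ∈ T i, ∀ b ∈ T i, a.Disjoint b → Path H k (a ++ b) ∨
      N ≤ {w : List V | w ∈ F ∧ Path H k (a ++ w ++ b)}.ncard) :
    ∀ ps : List (List V), ps ≠ [] → ps.length ≤ N → ps.flatten.Nodup →
      ps.IsChain (fun p p' => ∃ i, p.drop (p.length - (k - 1)) ∈ T i ∧ p'.take (k - 1) ∈ T i) →
      ∃ ws : List (List V), ws.length + 1 = ps.length ∧ (∀ w ∈ ws, w = [] ∨ w ∈ F) ∧
        (ws.filter (fun w => !w.isEmpty)).Nodup ∧ Conn H k ps ws := by
  intro ps
  induction ps with
  | nil => intro h; exact absurd rfl h
  | cons p ps ih =>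
    intro _ hN hnd hch
    cases ps with
    | nil => exact ⟨[], by simp, by simp, by simp, trivial⟩
    | cons p' ps =>
      rw [List.isChain_cons_cons] at hch
      obtain ⟨⟨i, hi1, hi2⟩, hch⟩ := hch
      have hnd' : (p ++ (p' :: ps).flatten).Nodup := by simpa using hnd
      obtain ⟨ws, hl, hF, hn, hC⟩ := ih (by simp) (by simp only [List.length_cons] at hN ⊢; omega)
        (List.Nodup.of_append_right hnd') hch
      have hdis : (p.drop (p.length - (k - 1))).Disjoint (p'.take (k - 1)) := by
        have h1 : p.Disjoint (p' :: ps).flatten := (List.disjoint_of_nodup_append hnd')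
        intro x hx hx'
        refine h1 (List.mem_of_mem_drop hx) ?_
        rw [List.flatten_cons]
        exact List.mem_append_left _ (List.mem_of_mem_take hx')
      rcases hc i _ hi1 _ hi2 hdis with h | h
      · refine ⟨[] :: ws, by simp only [List.length_cons] at hl ⊢; omega, ?_, ?_, ?_⟩
        · intro w hw
          rcases List.mem_cons.1 hw with rfl | hw
          · exact Or.inl rfl
          · exact hF w hw
        · simpa using hn
        · refine ⟨?_, hC⟩
          rw [List.append_nil]
          exact h
      · have hlt : ({w : List V | w ∈ ws}).ncard <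
            {w : List V | w ∈ F ∧ Path H k (p.drop (p.length - (k - 1)) ++ w ++
              p'.take (k - 1))}.ncard := by
          refine lt_of_lt_of_le ?_ h
          have h2 : ({w : List V | w ∈ ws}).ncard ≤ ws.length := by
            classical
            have h3 : {w : List V | w ∈ ws} = (ws.toFinset : Set (List V)) := by
              ext w; simp
            rw [h3, Set.ncard_coe_finset]
            exact List.toFinset_card_le ws
          simp only [List.length_cons] at hl hN
          omega
        obtain ⟨w, ⟨hwF, hwP⟩, hw⟩ := Set.exists_mem_notMem_of_ncard_lt_ncard hlt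
          (List.finite_toSet ws)
        refine ⟨w :: ws, by simp only [List.length_cons] at hl ⊢; omega, ?_, ?_, ?_⟩
        · intro w' hw'
          rcases List.mem_cons.1 hw' with rfl | hw'
          · exact Or.inr hwF
          · exact hF w' hw'
        · rw [List.filter_cons]
          split_ifs
          · rw [List.nodup_cons]
            exact ⟨fun h' => hw (List.mem_of_mem_filter h'), hn⟩
          · exact hn
        · exact ⟨hwP, hC⟩

omit [Fintype V] [DecidableEq V] in
theorem weave_perm : ∀ ps ws : List (List V), ws.length + 1 = ps.length →
    (weave ps ws).Perm (ps.flatten ++ ws.flatten) := by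
  intro ps
  induction ps with
  | nil => intro ws h; simp at h
  | cons p ps ih =>
    intro ws h
    cases ps with
    | nil =>
      have : ws = [] := by
        apply List.eq_nil_of_length_eq_zero
        simpa using h
      subst this
      simp [weave]
    | cons p' ps =>
      cases ws with
      | nil => simp at h
      | cons w ws =>
        have h' : ws.length + 1 = (p' :: ps).length := by
          simp only [List.length_cons] at h ⊢
          omega
        have := ih ws h'
        show (p ++ w ++ weave (p' :: ps) ws).Perm _
        have e : (p :: p' :: ps).flatten ++ (w :: ws).flatten =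
            p ++ (((p' :: ps).flatten ++ w) ++ ws.flatten) := by
          rw [List.flatten_cons, List.flatten_cons (l := w), List.append_assoc, List.append_assoc]
        rw [e, List.append_assoc]
        apply List.Perm.append_left
        refine (List.Perm.append_left w this).trans ?_
        rw [← List.append_assoc]
        exact List.Perm.append_right _ List.perm_append_comm

omit [Fintype V] [DecidableEq V] in
theorem weave_take (k : ℕ) : ∀ ps ws : List (List V), ws.length + 1 = ps.length →
    (∀ p ∈ ps, k - 1 ≤ p.length) →
    (weave ps ws).take (k - 1) = (ps.head!).take (k - 1) ∧ k - 1 ≤ (weave ps ws).length := by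
  intro ps ws h hp
  cases ps with
  | nil => simp at h
  | cons p ps =>
    cases ps with
    | nil => exact ⟨rfl, hp p (by simp)⟩
    | cons p' ps =>
      cases ws with
      | nil => simp at h
      | cons w ws =>
        have h1 := hp p (by simp)
        refine ⟨?_, ?_⟩
        · show (p ++ w ++ weave (p' :: ps) ws).take (k - 1) = p.take (k - 1)
          rw [List.append_assoc, List.take_append_of_le_length h1]
        · show k - 1 ≤ (p ++ w ++ weave (p' :: ps) ws).length
          rw [List.append_assoc, List.length_append]
          omega

omit [Fintype V] [DecidableEq V] in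
theorem weave_drop (k : ℕ) : ∀ ps ws : List (List V), ws.length + 1 = ps.length →
    (∀ p ∈ ps, k - 1 ≤ p.length) →
    (weave ps ws).drop ((weave ps ws).length - (k - 1)) =
      (ps.getLast!).drop ((ps.getLast!).length - (k - 1)) := by
  intro ps
  induction ps with
  | nil => intro ws h; simp at h
  | cons p ps ih =>
    intro ws h hp
    cases ps with
    | nil => rfl
    | cons p' ps =>
      cases ws with
      | nil => simp at h
      | cons w ws =>
        have h' : ws.length + 1 = (p' :: ps).length := by
          simp only [List.length_cons] at h ⊢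
          omega
        have hp' : ∀ x ∈ p' :: ps, k - 1 ≤ x.length := fun x hx => hp x (by simp [hx])
        have h2 := ih ws h' hp'
        have h3 := (weave_take k (p' :: ps) ws h' hp').2
        have h4 : (p :: p' :: ps).getLast! = (p' :: ps).getLast! := by
          simp [List.getLast!]
        rw [h4, ← h2]
        show ((p ++ w) ++ weave (p' :: ps) ws).drop
          (((p ++ w) ++ weave (p' :: ps) ws).length - (k - 1)) = _
        rw [List.length_append, List.drop_append]
        have h5 : (p ++ w).drop ((p ++ w).length + (weave (p' :: ps) ws).length - (k - 1)) = [] := by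
          apply List.drop_eq_nil_of_le
          omega
        rw [h5, List.nil_append]
        congr 1
        omega

omit [Fintype V] in
theorem weave_tight (H : Finset (Finset V)) (k : ℕ) : ∀ ps ws : List (List V),
    ws.length + 1 = ps.length → (∀ p ∈ ps, Tight H k p ∧ k - 1 ≤ p.length) → Conn H k ps ws →
    Tight H k (weave ps ws) := by
  intro ps
  induction ps with
  | nil => intro ws h; simp at h
  | cons p ps ih =>
    intro ws h hp hC
    cases ps with
    | nil => exact (hp p (by simp)).1
    | cons p' ps =>
      cases ws with
      | nil => simp at h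
      | cons w ws =>
        have h' : ws.length + 1 = (p' :: ps).length := by
          simp only [List.length_cons] at h ⊢
          omega
        have hp' : ∀ x ∈ p' :: ps, Tight H k x ∧ k - 1 ≤ x.length :=
          fun x hx => hp x (by simp [hx])
        obtain ⟨hC1, hC2⟩ := hC
        have hT := ih ws h' hp' hC2
        have ht := weave_take k (p' :: ps) ws h' (fun x hx => (hp' x hx).2)
        have hp1 := hp p (by simp)
        show Tight H k (p ++ w ++ weave (p' :: ps) ws)
        have e1 : p = p.take (p.length - (k - 1)) ++ p.drop (p.length - (k - 1)) :=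
          (List.take_append_drop _ _).symm
        have e2 : weave (p' :: ps) ws = p'.take (k - 1) ++ (weave (p' :: ps) ws).drop (k - 1) := by
          conv_lhs => rw [← List.take_append_drop (k - 1) (weave (p' :: ps) ws)]
          rw [ht.1]
          rfl
        have l1 : k - 1 ≤ (p.drop (p.length - (k - 1))).length := by
          rw [List.length_drop]; omega
        have l2 : k - 1 ≤ (p'.take (k - 1)).length := by
          rw [List.length_take]
          have := (hp' p' (by simp)).2
          omega
        have s1 : Tight H k (p.take (p.length - (k - 1)) ++ p.drop (p.length - (k - 1)) ++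
            (w ++ p'.take (k - 1))) := by
          apply tight_cat H k _ _ l1
          · rw [← e1]; exact hp1.1
          · rw [← List.append_assoc]; exact hC1.2
        rw [← e1, ← List.append_assoc] at s1
        have s2 : Tight H k ((p ++ w) ++ p'.take (k - 1) ++ (weave (p' :: ps) ws).drop (k - 1)) := by
          apply tight_cat H k s1 _ l2
          rw [← e2]; exact hT
        rw [List.append_assoc (p ++ w), ← e2] at s2
        exact s2

omit [Fintype V] [DecidableEq V] in
theorem flatten_nodup (F ws : List (List V)) (l : List V) (h : (l ++ F.flatten).Nodup)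
    (hF : ∀ w ∈ ws, w = [] ∨ w ∈ F) (hn : (ws.filter (fun w => !w.isEmpty)).Nodup) :
    (l ++ ws.flatten).Nodup := by
  have h1 : ws.filter (fun w => !w.isEmpty) ⊆ F := by
    intro w hw
    rw [List.mem_filter] at hw
    rcases hF w hw.1 with h2 | h2
    · subst h2; simp at hw
    · exact h2
  obtain ⟨l', hl1, hl2⟩ := List.subperm_of_subset hn h1
  have h3 : (ws.filter (fun w => !w.isEmpty)).flatten = ws.flatten :=
    List.flatten_filter_not_isEmpty
  rw [← h3]
  have h4 : (l ++ (ws.filter (fun w => !w.isEmpty)).flatten).Perm (l ++ l'.flatten) :=
    List.Perm.append_left l hl1.symm.flatten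
  rw [h4.nodup_iff]
  exact h.sublist (List.Sublist.append_left hl2.flatten l)

/-- JSQ. -/
theorem jsq : JsqStmt := by
  intro k q V _ _ H T F ps _ _ _ hne hnd _ hp hch hc
  have hnd1 : ps.flatten.Nodup := List.Nodup.of_append_left hnd
  obtain ⟨ws, hl, hF, hn, hC⟩ := exists_conn H k q T F ps.length hc ps hne le_rfl hnd1 hch
  have hp2 : ∀ p ∈ ps, k - 1 ≤ p.length := fun p h => (hp p h).2
  have hN := flatten_nodup F ws ps.flatten hnd hF hn
  have hP := weave_perm ps ws hl
  refine ⟨ws, hl, hF, hN, hP, ⟨?_, ?_⟩, (weave_take k ps ws hl hp2).1, weave_drop k ps ws hl hp2⟩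
  · exact (hP.nodup_iff).2 hN
  · exact weave_tight H k ps ws hl (fun p h => ⟨(hp p h).1.2, (hp p h).2⟩) hC

end Pool.Agent.KK.H72
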